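import Pool.Agent.Helper22.TW.Stmts

/-!
# MP_8312c9_nt: clearing denominators and squares
-/

set_option autoImplicit false

namespace Pool.Agent.Helper22.TW

open Polynomial

/-- a separable polynomial with the same roots -/
theorem sep_sqfree {k : Type} [Field k] [CharZero k] (G : k[X]) (hG : G ≠ 0) :
    ∃ G0 : k[X], G0 ≠ 0 ∧ G0.Separable ∧
      ∀ (M : Type) [Field M] (σ : k →+* M) (ξ : M), (G.map σ).eval ξ = 0 →
        (G0.map σ).eval ξ = 0 := by
  classical
  refine ⟨UniqueFactorizationMonoid.radical G, UniqueFactorizationMonoid.radical_ne_zero, ?_, ?_⟩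
  · rw [PerfectField.separable_iff_squarefree]
    exact UniqueFactorizationMonoid.squarefree_radical
  · intro M _ σ ξ h
    obtain ⟨n, hn⟩ := UniqueFactorizationMonoid.exists_dvd_radical_self_pow hG
    obtain ⟨Q, hQ⟩ := hn
    have h1 : ((UniqueFactorizationMonoid.radical G ^ n).map σ).eval ξ = 0 := by
      rw [hQ, Polynomial.map_mul, eval_mul, h, zero_mul]
    rw [Polynomial.map_pow, eval_pow] at h1
    exact eq_zero_of_pow_eq_zero h1

/-- common denominators -/
theorem sep_clear (hFR : ST_FRAC) {F k : Type} [Field F] [Field k] [Algebra F k] (t : k)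
    (hG : Gen F k t) : Function.Injective (aeval t : F[X] →ₐ[F] k) ∧
    ∀ p : k[X], ∃ (b : F[X]) (P : F[X][X]), b ≠ 0 ∧
      P.map (aeval t : F[X] →ₐ[F] k).toRingHom = C (aeval t b) * p := by
  have hinj : Function.Injective (aeval t : F[X] →ₐ[F] k) :=
    transcendental_iff_injective.mp hG.1
  refine ⟨hinj, fun p => ?_⟩
  let _ : Algebra F[X] k := (aeval t : F[X] →ₐ[F] k).toRingHom.toAlgebra
  have hmap : ∀ a : F[X], algebraMap F[X] k a = aeval t a := fun a => rfl
  have : FaithfulSMul F[X] k := (faithfulSMul_iff_algebraMap_injective F[X] k).mpr hinj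
  have : IsFractionRing F[X] k := by
    refine IsFractionRing.of_field F[X] k fun z => ?_
    obtain ⟨A, B, -, -, h⟩ := hFR F k t hG z
    exact ⟨A, B, h⟩
  obtain ⟨b, hb1, hb2⟩ := IsLocalization.integerNormalization_spec (nonZeroDivisors F[X]) p
  refine ⟨b, IsLocalization.integerNormalization (nonZeroDivisors F[X]) p,
    nonZeroDivisors.ne_zero hb1, ?_⟩
  have e : (aeval t : F[X] →ₐ[F] k).toRingHom = algebraMap F[X] k := rfl
  rw [e, hb2]
  ext n
  rw [coeff_smul, coeff_C_mul, Algebra.smul_def, hmap]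

theorem st_SEP (hFR : ST_FRAC) : ST_SEP := by
  classical
  intro F k _ _ _ _ t hG G hG0
  have : CharZero k := charZero_of_injective_algebraMap (algebraMap F k).injective
  obtain ⟨hinj, hclear⟩ := sep_clear hFR t hG
  obtain ⟨G0, hG0ne, hsep, hroot⟩ := sep_sqfree G hG0
  obtain ⟨U, V, hUV⟩ := hsep
  obtain ⟨b0, H, hb0, hH⟩ := hclear G0
  obtain ⟨bU, U1, hbU, hU1⟩ := hclear U
  obtain ⟨bV, V1, hbV, hV1⟩ := hclear V
  set φ : F[X] →+* k := (aeval t : F[X] →ₐ[F] k).toRingHom with hφ
  have hφa : ∀ a : F[X], φ a = aeval t a := fun a => rfl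
  have hφinj : Function.Injective φ := hinj
  have hφne : ∀ a : F[X], a ≠ 0 → φ a ≠ 0 := fun a ha h => ha (hφinj (by rw [h, map_zero]))
  have hHne : H ≠ 0 := by
    intro h
    rw [h, Polynomial.map_zero] at hH
    have h1 : C (aeval t b0) * G0 ≠ 0 := by
      refine mul_ne_zero ?_ hG0ne
      rw [Ne, C_eq_zero]
      exact hφne b0 hb0
    exact h1 hH.symm
  -- the Bezout identity over `F[X]`
  have hbez : (C bV * U1) * H + (C bU * V1) * derivative H = C (b0 * bU * bV) := by
    apply Polynomial.map_injective φ hφinj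
    rw [Polynomial.map_add, Polynomial.map_mul, Polynomial.map_mul, Polynomial.map_mul,
      Polynomial.map_mul, map_C, map_C, map_C, ← derivative_map, hH, hU1, hV1, derivative_C_mul,
      hφa, hφa, hφa, map_mul, C_mul, map_mul, C_mul]
    linear_combination (C (aeval t b0) * C (aeval t bU) * C (aeval t bV)) * hUV
  refine ⟨H, b0 * bU * bV * H.leadingCoeff, ?_, hHne, ?_, ?_⟩
  · exact mul_ne_zero (mul_ne_zero (mul_ne_zero hb0 hbU) hbV) (leadingCoeff_ne_zero.mpr hHne)
  · intro M _ σ ξ h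
    have h1 := hroot M σ ξ h
    have h2 : H.eval₂ (σ.comp φ) ξ = (H.map φ).eval₂ σ ξ := by rw [eval₂_map]
    show H.eval₂ (σ.comp φ) ξ = 0
    rw [h2, hH, eval₂_mul, eval₂_eq_eval_map σ (p := G0), h1, mul_zero]
  · intro F' _ i v hρ
    set e : F[X] →+* F' := eval₂RingHom i v with he
    have hea : ∀ a : F[X], e a = a.eval₂ i v := fun a => rfl
    rw [← hea, map_mul] at hρ
    have h1 : e (b0 * bU * bV) ≠ 0 := left_ne_zero_of_mul hρ
    have h2 : e H.leadingCoeff ≠ 0 := right_ne_zero_of_mul hρ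
    refine ⟨?_, natDegree_map_of_leadingCoeff_ne_zero e h2⟩
    have h3 := congrArg (Polynomial.map e) hbez
    rw [Polynomial.map_add, Polynomial.map_mul (p := C bV * U1), Polynomial.map_mul (p := C bU * V1),
      ← derivative_map, map_C] at h3
    refine ⟨C (e (b0 * bU * bV))⁻¹ * (C bV * U1).map e,
      C (e (b0 * bU * bV))⁻¹ * (C bU * V1).map e, ?_⟩
    have h4 : C (e (b0 * bU * bV))⁻¹ * C (e (b0 * bU * bV)) = 1 := by
      rw [← C_mul, inv_mul_cancel₀ h1, C_1]
    linear_combination C (e (b0 * bU * bV))⁻¹ * h3 + h4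

end Pool.Agent.Helper22.TW
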